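import Pool.Agent.Work.MP_58debc_an.Plane

open Set MeasureTheory Laplacian
open scoped Topology Manifold

namespace Pool.Agent.Results.MP_58debc_an.EllipseCounterexample

/-- `Ω` is a bounded domain with smooth boundary (given by a smooth defining function with
nonvanishing gradient on its zero set) and `ν` is the outer unit normal on the boundary. -/
def IsSmoothDomain {n : ℕ} (Ω : Set (EuclideanSpace ℝ (Fin n)))
    (ν : EuclideanSpace ℝ (Fin n) → EuclideanSpace ℝ (Fin n)) : Prop :=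
  IsOpen Ω ∧ IsConnected Ω ∧ Bornology.IsBounded Ω ∧
    ∃ ρ : EuclideanSpace ℝ (Fin n) → ℝ, ContDiff ℝ (⊤ : ℕ∞) ρ ∧ Ω = {x | ρ x < 0} ∧
      ∀ x, ρ x = 0 → gradient ρ x ≠ 0 ∧ ν x = ‖gradient ρ x‖⁻¹ • gradient ρ x

/-- Green's pairing `∫_Ω u (Δφ - qφ)`. When `Δu = qu` in `Ω` it is `∫_Ω (u Δφ - φ Δu)`, the
boundary term `⟨u, ∂_ν φ⟩ - ⟨∂_ν u, φ⟩` that defines the traces of elements of `H_Δ(Ω)`. -/
noncomputable def green {n : ℕ} (Ω : Set (EuclideanSpace ℝ (Fin n)))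
    (q u : EuclideanSpace ℝ (Fin n) → ℂ) (φ : EuclideanSpace ℝ (Fin n) → ℝ) : ℂ :=
  ∫ x in Ω, u x * (((Δ φ x : ℝ) : ℂ) - q x * (φ x : ℂ))

/-- `u ∈ L²(Ω)` solves `(-Δ + q) u = 0` in the sense of distributions in `Ω`
(so `Δu = qu ∈ L²(Ω)` and `u ∈ H_Δ(Ω)` when `q` is bounded). -/
def IsSolution {n : ℕ} (Ω : Set (EuclideanSpace ℝ (Fin n)))
    (q u : EuclideanSpace ℝ (Fin n) → ℂ) : Prop :=
  MemLp u 2 (volume.restrict Ω) ∧ ∀ φ : EuclideanSpace ℝ (Fin n) → ℝ, ContDiff ℝ (⊤ : ℕ∞) φ →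
    HasCompactSupport φ → tsupport φ ⊆ Ω → green Ω q u φ = 0

/-- Smooth `φ` with `φ = 0` on `∂Ω` and `∂_ν φ|∂Ω` supported in `V`. For such `φ` the Dirichlet
trace acts by `⟨u|∂Ω, ∂_ν φ⟩ = green Ω q u φ`. -/
def dirTest {n : ℕ} (Ω : Set (EuclideanSpace ℝ (Fin n)))
    (ν : EuclideanSpace ℝ (Fin n) → EuclideanSpace ℝ (Fin n))
    (V : Set (EuclideanSpace ℝ (Fin n))) : Set (EuclideanSpace ℝ (Fin n) → ℝ) :=
  {φ | ContDiff ℝ (⊤ : ℕ∞) φ ∧ (∀ x ∈ frontier Ω, φ x = 0) ∧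
    closure {x | x ∈ frontier Ω ∧ fderiv ℝ φ x (ν x) ≠ 0} ⊆ V}

/-- Smooth `φ` with `∂_ν φ = 0` on `∂Ω` and `φ|∂Ω` supported in `V`. For such `φ` the Neumann
trace acts by `⟨∂_ν u|∂Ω, φ⟩ = - green Ω q u φ`. -/
def neuTest {n : ℕ} (Ω : Set (EuclideanSpace ℝ (Fin n)))
    (ν : EuclideanSpace ℝ (Fin n) → EuclideanSpace ℝ (Fin n))
    (V : Set (EuclideanSpace ℝ (Fin n))) : Set (EuclideanSpace ℝ (Fin n) → ℝ) :=
  {φ | ContDiff ℝ (⊤ : ℕ∞) φ ∧ (∀ x ∈ frontier Ω, fderiv ℝ φ x (ν x) = 0) ∧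
    closure {x | x ∈ frontier Ω ∧ φ x ≠ 0} ⊆ V}

/-- The support of the distribution `u|∂Ω` lies in `Γ`: the trace vanishes near every boundary
point outside `Γ`. -/
def TraceSupportedIn {n : ℕ} (Ω : Set (EuclideanSpace ℝ (Fin n)))
    (ν : EuclideanSpace ℝ (Fin n) → EuclideanSpace ℝ (Fin n))
    (q u : EuclideanSpace ℝ (Fin n) → ℂ) (Γ : Set (EuclideanSpace ℝ (Fin n))) : Prop :=
  ∀ x ∈ frontier Ω, x ∉ Γ → ∃ V, IsOpen V ∧ x ∈ V ∧ ∀ φ ∈ dirTest Ω ν V, green Ω q u φ = 0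

/-- The Cauchy data set: the pairs (`u|Γ_D`, `∂_ν u|Γ_N`) of distributions, over all solutions
`u` whose Dirichlet trace is supported in `Γ_D`. -/
def cauchyData {n : ℕ} (Ω : Set (EuclideanSpace ℝ (Fin n)))
    (ν : EuclideanSpace ℝ (Fin n) → EuclideanSpace ℝ (Fin n))
    (q : EuclideanSpace ℝ (Fin n) → ℂ) (ΓD ΓN : Set (EuclideanSpace ℝ (Fin n))) :
    Set ((dirTest Ω ν ΓD → ℂ) × (neuTest Ω ν ΓN → ℂ)) :=
  {p | ∃ u, IsSolution Ω q u ∧ TraceSupportedIn Ω ν q u ΓD ∧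
    p = (fun φ : dirTest Ω ν ΓD => green Ω q u φ, fun φ : neuTest Ω ν ΓN => -green Ω q u φ)}

open Pool.Agent.Work.MP_58debc_an Real

lemma green_eq {q : E2 → ℝ} (hq : Continuous q) {u : E2 → ℂ}
    (hu : MemLp u 2 (volume.restrict Om2)) {φ : E2 → ℝ} (hφ : ContDiff ℝ (⊤ : ℕ∞) φ) :
    green Om2 (fun x => (q x : ℂ)) u φ =
      (gr2 q (fun x => (u x).re) φ : ℂ) + (gr2 q (fun x => (u x).im) φ : ℂ) * Complex.I :=
  complex_split hq hu hφ

lemma green_add {q : E2 → ℝ} (hq : Continuous q) {u : E2 → ℂ}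
    (hu : MemLp u 2 (volume.restrict Om2)) {φ ψ : E2 → ℝ} (hφ : ContDiff ℝ (⊤ : ℕ∞) φ)
    (hψ : ContDiff ℝ (⊤ : ℕ∞) ψ) :
    green Om2 (fun x => (q x : ℂ)) u (φ + ψ) =
      green Om2 (fun x => (q x : ℂ)) u φ + green Om2 (fun x => (q x : ℂ)) u ψ := by
  have a : IntegrableOn (fun x => (u x).re) Om2 := hu.re.integrable (by norm_num)
  have b : IntegrableOn (fun x => (u x).im) Om2 := hu.im.integrable (by norm_num)
  rw [green_eq hq hu (φ := φ + ψ) (hφ.add hψ), green_eq hq hu hφ, green_eq hq hu hψ,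
    gr2_add_right hq a hφ hψ, gr2_add_right hq b hφ hψ]
  push_cast
  ring

lemma isCompact_frontier : IsCompact (frontier Om2) :=
  (isCompact_closedBall (0 : E2) (cosh (π / 2))).of_isClosed_subset isClosed_frontier
    (frontier_subset_closure.trans (closure_minimal Om2_subset Metric.isClosed_closedBall))

lemma fderiv_mul_bdry {χ φ : E2 → ℝ} (hχ : ContDiff ℝ (⊤ : ℕ∞) χ) (hφ : ContDiff ℝ (⊤ : ℕ∞) φ)
    (x v : E2) (h : φ x = 0) : fderiv ℝ (fun y => χ y * φ y) x v = χ x * fderiv ℝ φ x v := by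
  rw [fderiv_fun_mul (hχ.differentiable (by simp) x) (hφ.differentiable (by simp) x)]
  simp [h]

lemma good_union {q : E2 → ℝ} (hq : Continuous q) {u : E2 → ℂ}
    (hu : MemLp u 2 (volume.restrict Om2)) (ν : E2 → E2) {V1 V2 : Set E2} (o1 : IsOpen V1)
    (o2 : IsOpen V2) (h1 : ∀ φ ∈ dirTest Om2 ν V1, green Om2 (fun x => (q x : ℂ)) u φ = 0)
    (h2 : ∀ φ ∈ dirTest Om2 ν V2, green Om2 (fun x => (q x : ℂ)) u φ = 0) :
    ∀ φ ∈ dirTest Om2 ν (V1 ∪ V2), green Om2 (fun x => (q x : ℂ)) u φ = 0 := by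
  rintro φ ⟨hφ, h0, hS⟩
  set S := closure {x | x ∈ frontier Om2 ∧ fderiv ℝ φ x (ν x) ≠ 0} with hSdef
  obtain ⟨f, f0, f1, -⟩ := exists_contMDiffMap_zero_one_nhds_of_isClosed 𝓘(ℝ, E2) (n := (⊤ : ℕ∞))
    (s := V1ᶜ) (t := S \ V2) o1.isClosed_compl (isClosed_closure.sdiff o2) (by
      rw [Set.disjoint_left]
      intro x hx hx'
      rcases hS hx'.1 with h | h
      · exact hx h
      · exact hx'.2 h)
  have hf : ContDiff ℝ (⊤ : ℕ∞) f := f.contMDiff.contDiff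
  have hg : ContDiff ℝ (⊤ : ℕ∞) fun y => 1 - f y := contDiff_const.sub hf
  have split : φ = (fun y => f y * φ y) + fun y => (1 - f y) * φ y := by ext y; simp; ring
  rw [split, green_add hq hu (hf.mul hφ) (hg.mul hφ), h1, h2, add_zero]
  · refine ⟨hg.mul hφ, fun x hx => by simp only [h0 x hx, mul_zero], fun x hx => ?_⟩
    by_contra hxV
    have hxS : x ∈ S := by
      refine closure_mono ?_ hx
      intro y hy
      refine ⟨hy.1, fun h => hy.2 ?_⟩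
      rw [fderiv_mul_bdry hg hφ y _ (h0 y hy.1), h, mul_zero]
    have hn : ∀ᶠ y in 𝓝 x, f y = 1 :=
      f1.filter_mono (nhds_le_nhdsSet (show x ∈ S \ V2 from ⟨hxS, hxV⟩))
    obtain ⟨y, hy1, hy2⟩ := mem_closure_iff_nhds.1 hx _ hn
    apply hy2.2
    have hy1' : f y = 1 := hy1
    rw [fderiv_mul_bdry hg hφ y _ (h0 y hy2.1), hy1', sub_self, zero_mul]
  · refine ⟨hf.mul hφ, fun x hx => by simp only [h0 x hx, mul_zero], fun x hx => ?_⟩
    by_contra hxV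
    have hn : ∀ᶠ y in 𝓝 x, f y = 0 := f0.filter_mono (nhds_le_nhdsSet hxV)
    obtain ⟨y, hy1, hy2⟩ := mem_closure_iff_nhds.1 hx _ hn
    apply hy2.2
    have hy1' : f y = 0 := hy1
    rw [fderiv_mul_bdry hf hφ y _ (h0 y hy2.1), hy1', zero_mul]

/-- the Dirichlet arc -/
def GD : Set E2 := frontier Om2 ∩ {x | 3 / 4 * cosh (π / 2) < (ee.symm x).re}

/-- the Neumann arc -/
def GN : Set E2 := frontier Om2 ∩ {x | (ee.symm x).re < -(3 / 4 * cosh (π / 2))}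

lemma left_mem : ee (Z (π / 2, π)) ∈ GN := by
  have hA := one_lt_A
  refine ⟨?_, ?_⟩
  · rw [frontier_Om2, frontier_Om]
    show rho (ee.symm (ee _)) = 0
    rw [ee.symm_apply_apply]
    exact (rho_Z_eq _).2 (Or.inl rfl)
  · show (ee.symm (ee _)).re < _
    rw [ee.symm_apply_apply]
    simp only [Z_re, cos_pi]
    linarith

lemma right_mem : ee (Z (π / 2, 0)) ∈ GD := by
  have hA := one_lt_A
  refine ⟨?_, ?_⟩
  · rw [frontier_Om2, frontier_Om]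
    show rho (ee.symm (ee _)) = 0
    rw [ee.symm_apply_apply]
    exact (rho_Z_eq _).2 (Or.inl rfl)
  · show _ < (ee.symm (ee _)).re
    rw [ee.symm_apply_apply]
    simp only [Z_re, cos_zero]
    linarith

lemma vanish {q : E2 → ℝ} (hq : Continuous q) {u : E2 → ℂ}
    (hu : MemLp u 2 (volume.restrict Om2)) (ν : E2 → E2)
    (hs : TraceSupportedIn Om2 ν (fun x => (q x : ℂ)) u GD) (φ : E2 → ℝ)
    (hφ : ContDiff ℝ (⊤ : ℕ∞) φ) (h0 : ∀ x ∈ frontier Om2, φ x = 0)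
    (h1 : ∀ x, 1 / 2 < sc (ee.symm x) → φ x = 0) : green Om2 (fun x => (q x : ℂ)) u φ = 0 := by
  have hA := one_lt_A
  have csc : Continuous fun x : E2 => sc (ee.symm x) := continuous_sc.comp ee.symm.continuous
  have hcl : IsClosed {x : E2 | sc (ee.symm x) ≤ 1 / 2} := isClosed_le csc continuous_const
  have hK : IsCompact (frontier Om2 ∩ {x : E2 | sc (ee.symm x) ≤ 1 / 2}) :=
    isCompact_frontier.inter_right hcl
  obtain ⟨V, -, hKV, hV⟩ := hK.induction_on (p := fun s => ∃ V, IsOpen V ∧ s ⊆ V ∧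
      ∀ φ ∈ dirTest Om2 ν V, green Om2 (fun x => (q x : ℂ)) u φ = 0)
    (by
      obtain ⟨V, o, -, hV⟩ := hs _ left_mem.1 (fun h => by
        have a := h.2
        have b := left_mem.2
        simp only [mem_ofPred_eq] at a b
        linarith)
      exact ⟨V, o, empty_subset _, hV⟩)
    (fun s t hst ⟨V, o, ht, hV⟩ => ⟨V, o, hst.trans ht, hV⟩)
    (fun s t ⟨V1, o1, s1, g1⟩ ⟨V2, o2, s2, g2⟩ =>
      ⟨V1 ∪ V2, o1.union o2, union_subset_union s1 s2, good_union hq hu ν o1 o2 g1 g2⟩)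
    (fun x hx => by
      obtain ⟨V, o, hxV, hV⟩ := hs x hx.1 (fun h => by
        have a := h.2
        have b := hx.2
        simp only [mem_ofPred_eq] at a b
        rw [re_frontier x hx.1] at a
        nlinarith)
      exact ⟨V, mem_nhdsWithin_of_mem_nhds (o.mem_nhds hxV), V, o, subset_rfl, hV⟩)
  refine hV φ ⟨hφ, h0, (closure_minimal ?_ hK.isClosed).trans hKV⟩
  intro x hx
  refine ⟨hx.1, ?_⟩
  by_contra hc
  have hc' : 1 / 2 < sc (ee.symm x) := not_le.1 hc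
  have he : φ =ᶠ[𝓝 x] fun _ => 0 := by
    filter_upwards [(isOpen_lt continuous_const csc).mem_nhds hc'] with y hy
    exact h1 y hy
  apply hx.2
  rw [he.fderiv_eq]
  simp

lemma incl {B : ℝ → ℝ} (hB : Adm B) (ν : E2 → E2) :
    cauchyData Om2 ν (fun x => ((pot B ∘ ee.symm) x : ℂ)) GD GN ⊆
      cauchyData Om2 ν (fun x => (((pot fun t => B (π - t)) ∘ ee.symm) x : ℂ)) GD GN := by
  rintro p ⟨u, ⟨hu, hsol⟩, hs, rfl⟩
  have cq : Continuous (pot B ∘ ee.symm) := hB.contDiff_pot.continuous.comp ee.symm.continuous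
  have cq' : Continuous ((pot fun t => B (π - t)) ∘ ee.symm) :=
    hB.flip.contDiff_pot.continuous.comp ee.symm.continuous
  obtain ⟨v1, hv1, e1⟩ := transfer2 hB (fun x => (u x).re) hu.re fun φ hφ h0 h1 => by
    have := vanish cq hu ν hs φ hφ h0 h1
    rw [green_eq cq hu hφ] at this
    simpa using congrArg Complex.re this
  obtain ⟨v2, hv2, e2⟩ := transfer2 hB (fun x => (u x).im) hu.im fun φ hφ h0 h1 => by
    have := vanish cq hu ν hs φ hφ h0 h1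
    rw [green_eq cq hu hφ] at this
    simpa using congrArg Complex.im this
  have hv : MemLp (fun x => (v1 x : ℂ) + (v2 x : ℂ) * Complex.I) 2 (volume.restrict Om2) :=
    MemLp.add hv1.ofReal (MemLp.mul_const hv2.ofReal _)
  have key : ∀ φ : E2 → ℝ, ContDiff ℝ (⊤ : ℕ∞) φ →
      (∀ x ∈ frontier Om2, -(3 / 4 * cosh (π / 2)) ≤ (ee.symm x).re → φ x = 0) →
      green Om2 (fun x => (((pot fun t => B (π - t)) ∘ ee.symm) x : ℂ))
        (fun x => (v1 x : ℂ) + (v2 x : ℂ) * Complex.I) φ =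
      green Om2 (fun x => ((pot B ∘ ee.symm) x : ℂ)) u φ := by
    intro φ hφ h0
    rw [green_eq cq' hv hφ, green_eq cq hu hφ, ← e1 φ hφ h0, ← e2 φ hφ h0]
    simp
  refine ⟨_, ⟨hv, fun φ hφ hc hsub => ?_⟩, fun x hx hxD => ?_, Prod.ext ?_ ?_⟩
  · rw [key φ hφ fun x hx _ => ?_, hsol φ hφ hc hsub]
    refine image_eq_zero_of_notMem_tsupport fun h => ?_
    rw [isOpen_Om2.frontier_eq] at hx
    exact hx.2 (hsub h)
  · obtain ⟨V, o, hxV, hV⟩ := hs x hx hxD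
    exact ⟨V, o, hxV, fun φ hφ => by rw [key φ hφ.1 fun y hy _ => hφ.2.1 y hy, hV φ hφ]⟩
  · funext φ
    exact (key φ φ.2.1 fun y hy _ => φ.2.2.1 y hy).symm
  · funext φ
    refine congrArg Neg.neg (key φ φ.2.1 fun y hy hre => ?_).symm
    by_contra hne
    have := (φ.2.2.2 (subset_closure ⟨hy, hne⟩)).2
    simp only [mem_ofPred_eq] at this
    linarith

/-- Non-uniqueness in the Calderón problem with disjoint data on a convex smooth planar domain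
(connected boundary), for smooth nonnegative potentials. -/
theorem result :
    ∃ (Ω : Set (EuclideanSpace ℝ (Fin 2)))
      (ν : EuclideanSpace ℝ (Fin 2) → EuclideanSpace ℝ (Fin 2))
      (ΓD ΓN : Set (EuclideanSpace ℝ (Fin 2))) (q₁ q₂ : EuclideanSpace ℝ (Fin 2) → ℝ),
      IsSmoothDomain Ω ν ∧ Convex ℝ Ω ∧ IsConnected (frontier Ω) ∧
      (∃ U, IsOpen U ∧ ΓD = frontier Ω ∩ U) ∧ (∃ U, IsOpen U ∧ ΓN = frontier Ω ∩ U) ∧
      ΓD.Nonempty ∧ ΓN.Nonempty ∧ Disjoint (closure ΓD) (closure ΓN) ∧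
      ContDiff ℝ (⊤ : ℕ∞) q₁ ∧ ContDiff ℝ (⊤ : ℕ∞) q₂ ∧ (∀ x, 0 ≤ q₁ x) ∧ (∀ x, 0 ≤ q₂ x) ∧
      MemLp q₁ ⊤ (volume.restrict Ω) ∧ MemLp q₂ ⊤ (volume.restrict Ω) ∧
      ¬ (q₁ =ᵐ[volume.restrict Ω] q₂) ∧
      cauchyData Ω ν (fun x => (q₁ x : ℂ)) ΓD ΓN = cauchyData Ω ν (fun x => (q₂ x : ℂ)) ΓD ΓN := by
  have hA := one_lt_A
  have cre : Continuous fun x : E2 => (ee.symm x).re :=
    Complex.continuous_re.comp ee.symm.continuous
  have s1 : ContDiff ℝ (⊤ : ℕ∞) (pot B0 ∘ ee.symm) := adm_B0.contDiff_pot.comp ee.symm.contDiff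
  have s2 : ContDiff ℝ (⊤ : ℕ∞) ((pot fun t => B0 (π - t)) ∘ ee.symm) :=
    adm_B0.flip.contDiff_pot.comp ee.symm.contDiff
  refine ⟨Om2, fun x => ‖gradient (rho ∘ ee.symm) x‖⁻¹ • gradient (rho ∘ ee.symm) x, GD, GN,
    pot B0 ∘ ee.symm, (pot fun t => B0 (π - t)) ∘ ee.symm,
    ⟨isOpen_Om2, convex_Om2.isConnected ⟨0, ?_⟩,
      Metric.isBounded_closedBall.subset Om2_subset,
      rho ∘ ee.symm, contDiff_rho2, rfl, fun x hx => ⟨gradient_ne x hx, rfl⟩⟩,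
    convex_Om2, connected_frontier, ⟨_, isOpen_lt continuous_const cre, rfl⟩,
    ⟨_, isOpen_lt cre continuous_const, rfl⟩, ⟨_, right_mem⟩, ⟨_, left_mem⟩, ?_, s1, s2,
    fun x => pot_nonneg adm_B0 _, fun x => pot_nonneg adm_B0.flip _,
    memLp_top_Om2 s1.continuous, memLp_top_Om2 s2.continuous, pot_ne,
    Subset.antisymm (incl adm_B0 _) ?_⟩
  · show ee.symm 0 ∈ Om
    rw [map_zero]; exact zero_mem_Om
  · rw [Set.disjoint_left]
    intro x h1 h2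
    have a : 3 / 4 * cosh (π / 2) ≤ (ee.symm x).re :=
      closure_minimal (fun y hy => le_of_lt hy.2) (isClosed_le continuous_const cre) h1
    have b : (ee.symm x).re ≤ -(3 / 4 * cosh (π / 2)) :=
      closure_minimal (fun y hy => le_of_lt hy.2) (isClosed_le cre continuous_const) h2
    linarith
  · have := incl adm_B0.flip
      (fun x => ‖gradient (rho ∘ ee.symm) x‖⁻¹ • gradient (rho ∘ ee.symm) x)
    simp only [sub_sub_cancel] at this
    exact this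

end Pool.Agent.Results.MP_58debc_an.EllipseCounterexample
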